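import Mathlib

/-!
# CIR: a circle which avoids the zeros of a monic polynomial, and the maximum principle
-/

set_option autoImplicit false

namespace Pool.Agent.H14.GA

/-- a radius far from finitely many radii -/
theorem exists_rad (n : ℕ) (d : Fin n → ℝ) (ε : ℝ) (hε : 0 < ε) : ∃ R : ℝ, ε ≤ R ∧ R ≤ 2 * ε ∧
    ∀ i, ε / (4 * n) ≤ |d i - R| := by
  rcases Nat.eq_zero_or_pos n with h0 | h0
  · subst h0
    exact ⟨ε, le_rfl, by linarith, fun i => i.elim0⟩
  by_contra hcon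
  push Not at hcon
  have hn : (0 : ℝ) < n := by exact_mod_cast h0
  have h1 : ∀ k : Fin (n + 1), ∃ i, |d i - (ε + ε * (k : ℕ) / n)| < ε / (4 * n) := by
    intro k
    have hk : ((k : ℕ) : ℝ) ≤ n := by
      have := k.2
      exact_mod_cast Nat.lt_succ_iff.1 this
    refine hcon _ ?_ ?_
    · have : 0 ≤ ε * (k : ℕ) / n := by positivity
      linarith
    · have : ε * (k : ℕ) / n ≤ ε := by
        rw [div_le_iff₀ hn]
        exact mul_le_mul_of_nonneg_left hk hε.le
      linarith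
  choose f hf using h1
  obtain ⟨k, k', hne, he⟩ := Fintype.exists_ne_map_eq_of_card_lt f (by simp)
  have h2 := hf k
  have h3 := hf k'
  rw [← he] at h3
  have h4 : |ε * (k : ℕ) / n - ε * (k' : ℕ) / n| < ε / n := by
    have h5 : ε * (k : ℕ) / n - ε * (k' : ℕ) / n =
        (d (f k) - (ε + ε * (k' : ℕ) / n)) - (d (f k) - (ε + ε * (k : ℕ) / n)) := by ring
    rw [h5]
    refine (abs_sub _ _).trans_lt ?_
    have h6 : ε / (4 * n) + ε / (4 * n) ≤ ε / n := by
      have : ε / (4 * n) + ε / (4 * n) = ε / n / 2 := by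
        field_simp
        norm_num
      rw [this]
      have : 0 < ε / n := by positivity
      linarith
    linarith
  have h7 : (1 : ℝ) ≤ |((k : ℕ) : ℝ) - ((k' : ℕ) : ℝ)| := by
    have h8 : ((k : ℕ) : ℤ) - ((k' : ℕ) : ℤ) ≠ 0 := by
      intro h
      apply hne
      apply Fin.ext
      omega
    have h9 := Int.one_le_abs h8
    exact_mod_cast h9
  have h8 : ε * (k : ℕ) / n - ε * (k' : ℕ) / n = ε / n * (((k : ℕ) : ℝ) - ((k' : ℕ) : ℝ)) := by
    ring
  rw [h8, abs_mul, abs_of_pos (by positivity : (0 : ℝ) < ε / n)] at h4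
  have h10 : ε / n * 1 ≤ ε / n * |((k : ℕ) : ℝ) - ((k' : ℕ) : ℝ)| :=
    mul_le_mul_of_nonneg_left h7 (by positivity)
  linarith

/-- the maximum principle on a circle which avoids the zeros -/
theorem cir (n : ℕ) (r : Fin n → ℂ) (L Z : ℂ → ℂ) (s0 : ℂ) (ε B z0 : ℝ) (hε : 0 < ε)
    (hz0 : 0 < z0) (hL : Differentiable ℂ L) (hZ : ∀ s, ‖s - s0‖ ≤ 2 * ε → z0 ≤ ‖Z s‖)
    (hB : ∀ s, ‖s - s0‖ ≤ 2 * ε → ‖L s * (∏ i, (s - r i)) * Z s‖ ≤ B) :
    ‖L s0‖ ≤ B / z0 * (4 * n / ε) ^ n := by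
  obtain ⟨R, h1, h2, h3⟩ := exists_rad n (fun i => ‖s0 - r i‖) ε hε
  have hR : 0 < R := hε.trans_le h1
  have hB0 : 0 ≤ B := (norm_nonneg _).trans (hB s0 (by rw [sub_self, norm_zero]; linarith))
  refine Complex.norm_le_of_forall_mem_frontier_norm_le (U := Metric.ball s0 R)
    Metric.isBounded_ball hL.diffContOnCl ?_ ?_
  · intro s hs
    rw [frontier_ball _ hR.ne', mem_sphere_iff_norm] at hs
    have hs2 : ‖s - s0‖ ≤ 2 * ε := by rw [hs]; exact h2
    have h4 := hB s hs2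
    have h5 := hZ s hs2
    have h6 : (ε / (4 * n)) ^ n ≤ ‖∏ i, (s - r i)‖ := by
      rw [norm_prod]
      calc (ε / (4 * n)) ^ n = ∏ _i : Fin n, ε / (4 * (n : ℝ)) := by
            rw [Finset.prod_const, Finset.card_univ, Fintype.card_fin]
        _ ≤ ∏ i, ‖s - r i‖ := by
            refine Finset.prod_le_prod (fun i _ => by positivity) fun i _ => ?_
            refine (h3 i).trans ?_
            rw [← hs]
            have h7 : ‖s0 - r i‖ - ‖s - s0‖ ≤ ‖s - r i‖ := by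
              have h8 : s0 - r i = (s - r i) - (s - s0) := by ring
              have h9 := norm_sub_le (s - r i) (s - s0)
              rw [← h8] at h9
              linarith
            have h8 : ‖s - s0‖ - ‖s0 - r i‖ ≤ ‖s - r i‖ := by
              have h9 : s - s0 = (s - r i) - (s0 - r i) := by ring
              have h10 := norm_sub_le (s - r i) (s0 - r i)
              rw [← h9] at h10
              linarith
            exact abs_le.2 ⟨by linarith, h7⟩
    rw [norm_mul, norm_mul] at h4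
    rcases Nat.eq_zero_or_pos n with h0 | h0
    · subst h0
      simp only [Finset.univ_eq_empty, Finset.prod_empty, norm_one, mul_one, pow_zero] at h4 ⊢
      rw [le_div_iff₀ hz0]
      exact (mul_le_mul_of_nonneg_left h5 (norm_nonneg _)).trans h4
    have hn : (0 : ℝ) < n := by exact_mod_cast h0
    have h7 : ‖L s‖ * (ε / (4 * n)) ^ n * z0 ≤ B := by
      refine le_trans ?_ h4
      gcongr
    have h8 : (4 * n / ε) ^ n * (ε / (4 * n)) ^ n = 1 := by
      rw [← mul_pow]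
      have : 4 * (n : ℝ) / ε * (ε / (4 * n)) = 1 := by
        field_simp
      rw [this, one_pow]
    calc ‖L s‖ = ‖L s‖ * (ε / (4 * n)) ^ n * z0 * ((4 * n / ε) ^ n / z0) := by
          have : ‖L s‖ * (ε / (4 * n)) ^ n * z0 * ((4 * n / ε) ^ n / z0) =
              ‖L s‖ * ((4 * n / ε) ^ n * (ε / (4 * n)) ^ n) * (z0 / z0) := by ring
          rw [this, h8, div_self hz0.ne', mul_one, mul_one]
      _ ≤ B * ((4 * n / ε) ^ n / z0) := mul_le_mul_of_nonneg_right h7 (by positivity)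
      _ = B / z0 * (4 * n / ε) ^ n := by ring
  · exact subset_closure (Metric.mem_ball_self hR)

/-- a radius in `(0, ε]` far from finitely many radii -/
theorem exists_rad2 (n : ℕ) (d : Fin n → ℝ) (ε : ℝ) (hε : 0 < ε) : ∃ R : ℝ, 0 < R ∧ R ≤ ε ∧
    ∀ i, ε / (4 * (n + 1)) ≤ |d i - R| := by
  by_contra hcon
  push Not at hcon
  have hn : (0 : ℝ) < (n : ℝ) + 1 := by positivity
  have h1 : ∀ k : Fin (n + 1), ∃ i, |d i - ε * ((k : ℕ) + 1) / (n + 1)| <
      ε / (4 * (n + 1)) := by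
    intro k
    have hk : ((k : ℕ) : ℝ) ≤ n := by
      have := k.2
      exact_mod_cast Nat.lt_succ_iff.1 this
    refine hcon _ (by positivity) ?_
    rw [div_le_iff₀ hn]
    exact mul_le_mul_of_nonneg_left (by linarith) hε.le
  choose f hf using h1
  obtain ⟨k, k', hne, he⟩ := Fintype.exists_ne_map_eq_of_card_lt f (by simp)
  have h2 := hf k
  have h3 := hf k'
  rw [← he] at h3
  have h7 : (1 : ℝ) ≤ |((k : ℕ) : ℝ) - ((k' : ℕ) : ℝ)| := by
    have h8 : ((k : ℕ) : ℤ) - ((k' : ℕ) : ℤ) ≠ 0 := by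
      intro h
      apply hne
      apply Fin.ext
      omega
    have h9 := Int.one_le_abs h8
    exact_mod_cast h9
  have h4 : |ε / (n + 1) * (((k : ℕ) : ℝ) - ((k' : ℕ) : ℝ))| < ε / (n + 1) := by
    have h5 : ε / (n + 1) * (((k : ℕ) : ℝ) - ((k' : ℕ) : ℝ)) =
        (d (f k) - ε * ((k' : ℕ) + 1) / (n + 1)) - (d (f k) - ε * ((k : ℕ) + 1) / (n + 1)) := by
      ring
    rw [h5]
    refine (abs_sub _ _).trans_lt ?_
    have h6 : ε / (4 * (n + 1)) + ε / (4 * (n + 1)) = ε / ((n : ℝ) + 1) / 2 := by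
      field_simp
      norm_num
    have h8 : 0 < ε / ((n : ℝ) + 1) := by positivity
    linarith
  rw [abs_mul, abs_of_pos (by positivity : (0 : ℝ) < ε / (n + 1))] at h4
  have h10 : ε / ((n : ℝ) + 1) * 1 ≤ ε / (n + 1) * |((k : ℕ) : ℝ) - ((k' : ℕ) : ℝ)| :=
    mul_le_mul_of_nonneg_left h7 (by positivity)
  linarith

/-- the form with the radius at most `ε` -/
theorem cirb (n : ℕ) (rho : Fin n → ℂ) (s0 : ℂ) (ε : ℝ) (hε : 0 < ε) (L : ℂ → ℂ)
    (hL : Differentiable ℂ L) (B : ℝ) (_ : 0 ≤ B)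
    (hB : ∀ s, ‖s - s0‖ ≤ ε → ‖L s‖ * ∏ k, ‖s - rho k‖ ≤ B) :
    ‖L s0‖ ≤ B * (4 * (n + 1) / ε) ^ n := by
  obtain ⟨R, hR, h2, h3⟩ := exists_rad2 n (fun i => ‖s0 - rho i‖) ε hε
  refine Complex.norm_le_of_forall_mem_frontier_norm_le (U := Metric.ball s0 R)
    Metric.isBounded_ball hL.diffContOnCl ?_ (subset_closure (Metric.mem_ball_self hR))
  intro s hs
  rw [frontier_ball _ hR.ne', mem_sphere_iff_norm] at hs
  have h4 := hB s (by rw [hs]; exact h2)
  have h6 : (ε / (4 * (n + 1))) ^ n ≤ ∏ k, ‖s - rho k‖ := by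
    calc (ε / (4 * (n + 1))) ^ n = ∏ _i : Fin n, ε / (4 * ((n : ℝ) + 1)) := by
          rw [Finset.prod_const, Finset.card_univ, Fintype.card_fin]
      _ ≤ ∏ i, ‖s - rho i‖ := by
          refine Finset.prod_le_prod (fun i _ => by positivity) fun i _ => ?_
          refine (h3 i).trans ?_
          rw [← hs]
          have h7 : ‖s0 - rho i‖ - ‖s - s0‖ ≤ ‖s - rho i‖ := by
            have h8 : s0 - rho i = (s - rho i) - (s - s0) := by ring
            have h9 := norm_sub_le (s - rho i) (s - s0)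
            rw [← h8] at h9
            linarith
          have h8 : ‖s - s0‖ - ‖s0 - rho i‖ ≤ ‖s - rho i‖ := by
            have h9 : s - s0 = (s - rho i) - (s0 - rho i) := by ring
            have h10 := norm_sub_le (s - rho i) (s0 - rho i)
            rw [← h9] at h10
            linarith
          exact abs_le.2 ⟨by linarith, h7⟩
  have h8 : (4 * (n + 1) / ε) ^ n * (ε / (4 * ((n : ℝ) + 1))) ^ n = 1 := by
    rw [← mul_pow]
    have : 4 * ((n : ℝ) + 1) / ε * (ε / (4 * (n + 1))) = 1 := by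
      field_simp
    rw [this, one_pow]
  have h9 : ‖L s‖ * (ε / (4 * (n + 1))) ^ n ≤ B :=
    (mul_le_mul_of_nonneg_left h6 (norm_nonneg _)).trans h4
  calc ‖L s‖ = ‖L s‖ * (ε / (4 * (n + 1))) ^ n * (4 * (n + 1) / ε) ^ n := by
        rw [mul_assoc, mul_comm ((ε / (4 * ((n : ℝ) + 1))) ^ n), h8, mul_one]
    _ ≤ B * (4 * (n + 1) / ε) ^ n := mul_le_mul_of_nonneg_right h9 (by positivity)

/-- the form without the factor `Z` -/
theorem pf_CIR : ∀ (n : ℕ) (e : ℝ), 0 < e → ∀ (L : ℂ → ℂ) (rho : Fin n → ℂ) (s0 : ℂ)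
    (B z0 : ℝ), Differentiable ℂ L → 0 < z0 →
    (∀ s, ‖s - s0‖ ≤ 2 * e → z0 * (∏ l, ‖s - rho l‖) * ‖L s‖ ≤ B) →
    ‖L s0‖ ≤ B / z0 * (4 * n / e) ^ n := by
  intro n e he L rho s0 B z0 hL hz0 h
  refine cir n rho L (fun _ => (z0 : ℂ)) s0 e B z0 he hz0 hL (fun s _ => ?_) fun s hs => ?_
  · rw [Complex.norm_real, Real.norm_of_nonneg hz0.le]
  · rw [norm_mul, norm_mul, norm_prod, Complex.norm_real, Real.norm_of_nonneg hz0.le]
    refine le_trans (le_of_eq ?_) (h s hs)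
    ring

end Pool.Agent.H14.GA
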